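import Pool.Agent.Q110.Tys
import Pool.Agent.Q110.CB

/-!
# Size of the pseudoinverse solutions of additive equation systems

Positive answer to Q1 of MP_b60f31_al.
-/

set_option autoImplicit false

open Matrix

namespace Pool.Agent.Results.MP_b60f31_al.PseudoinverseBound

open Pool.Agent.Q110.Tys Pool.Agent.Q110.CB

variable {n : ℕ}

/-- The left side of the equation: `e_i` for `x_i = 1` and `e_i + e_j - e_k` for
`x_i + x_j = x_k`. -/
def row : Eqn n → Fin n → ℝ
  | .one i => Pi.single i 1
  | .add i j k => Pi.single i 1 + Pi.single j 1 - Pi.single k 1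

/-- The right side of the equation: `1` for `x_i = 1` and `0` for `x_i + x_j = x_k`. -/
def rhs : Eqn n → ℝ
  | .one _ => 1
  | .add _ _ _ => 0

theorem single_dot (i : Fin n) (z : Fin n → ℝ) : (Pi.single i 1 : Fin n → ℝ) ⬝ᵥ z = z i := by
  rw [single_dotProduct, one_mul]

theorem row_dot_iff (e : Eqn n) (z : Fin n → ℝ) : row e ⬝ᵥ z = rhs e ↔ e.Sat z := by
  cases e with
  | one i =>
    simp only [row, rhs, Eqn.Sat]
    rw [single_dot]
  | add i j k =>
    simp only [row, rhs, Eqn.Sat]
    rw [sub_dotProduct, add_dotProduct, single_dot, single_dot, single_dot, sub_eq_zero]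

/-- **Q1 is true.**  For a finite system of equations `x_i = 1`, `x_i + x_j = x_k` (consistent or not)
with matrix `A` and right side `b`, there is exactly one matrix `P` that satisfies the four Penrose
conditions, and every coordinate of `P b` lies in `[-2^(n-1), 2^(n-1)]`. -/
theorem result (n : ℕ) {ι : Type} [Fintype ι] (eqs : ι → Eqn n)
    (A : Matrix ι (Fin n) ℝ) (b : ι → ℝ) (hA : ∀ s, A s = row (eqs s)) (hb : ∀ s, b s = rhs (eqs s)) :
    ∃ P : Matrix (Fin n) ι ℝ,
      (A * P * A = A ∧ P * A * P = P ∧ (A * P)ᵀ = A * P ∧ (P * A)ᵀ = P * A) ∧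
      (∀ Q : Matrix (Fin n) ι ℝ,
        (A * Q * A = A ∧ Q * A * Q = Q ∧ (A * Q)ᵀ = A * Q ∧ (Q * A)ᵀ = Q * A) → Q = P) ∧
      ∀ i, -2 ^ (n - 1) ≤ (P *ᵥ b) i ∧ (P *ᵥ b) i ≤ 2 ^ (n - 1) := by
  classical
  obtain ⟨P, hP⟩ := exists_pinv A
  refine ⟨P, hP, fun Q hQ => IsPinv.unique hQ hP, fun i => ?_⟩
  have hmain : |(P *ᵥ b) i| ≤ 2 ^ (n - 1) := by
    refine pinv_bound A P hP b _ i fun p y hy => ?_
    let S : Set (Eqn n) := {e | (∃ a s, p a = Sum.inl s ∧ e = eqs s) ∨
      ∃ a k, p a = Sum.inr k ∧ e = Eqn.add k k k}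
    have hS : ∀ z : Fin n → ℝ, (∀ e ∈ S, e.Sat z) ↔ z = y := by
      intro z
      rw [← hy z]
      constructor
      · intro h a
        rcases hpa : p a with s | k
        · simp only [Sum.elim_inl]
          rw [hA, hb]
          exact (row_dot_iff _ _).2 (h _ (Or.inl ⟨a, s, hpa, rfl⟩))
        · simp only [Sum.elim_inr]
          have h1 : (Eqn.add k k k).Sat z := h _ (Or.inr ⟨a, k, hpa, rfl⟩)
          simp only [Eqn.Sat] at h1
          linarith
      · intro h e he
        rcases he with ⟨a, s, hpa, rfl⟩ | ⟨a, k, hpa, rfl⟩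
        · have h1 := h a
          rw [hpa] at h1
          simp only [Sum.elim_inl] at h1
          rw [hA, hb] at h1
          exact (row_dot_iff _ _).1 h1
        · have h1 := h a
          rw [hpa] at h1
          simp only [Sum.elim_inr] at h1
          simp only [Eqn.Sat]
          linarith
    obtain ⟨q, hq, hnum, -⟩ := unique_bound (K := ℝ) S y ((hS y).2 rfl)
      (fun z hz => (hS z).1 hz) i
    rw [hq, ← Rat.cast_abs]
    have h1 : |q| ≤ |(q.num : ℚ)| := by
      conv_lhs => rw [← Rat.num_div_den q]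
      rw [abs_div]
      refine div_le_self (abs_nonneg _) ?_
      have : (1 : ℚ) ≤ (q.den : ℚ) := by exact_mod_cast q.den_pos
      rwa [abs_of_pos (by linarith)]
    have h2 : |(q.num : ℚ)| ≤ 2 ^ (n - 1) := by
      rw [← Int.cast_abs]
      exact_mod_cast hnum
    exact_mod_cast h1.trans h2
  rw [abs_le] at hmain
  exact hmain

end Pool.Agent.Results.MP_b60f31_al.PseudoinverseBound
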